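import Pool.Agent.Y442.BP.Fin

/-!
# Maximum percolation time of the hypercube: bounds uniform in the threshold

For the threshold `r ≥ 3` the maximum percolation time `M(Q_{n,2}, r)` of `r`-neighbour bootstrap
percolation on the `n`-dimensional hypercube satisfies
`2 ^ n / (2 ^ (r + 9) n) ≤ M(Q_{n,2}, r) ≤ (r + 1) 2 ^ n / (n - r + 1)`
for all `n ≥ 2 ^ 15 + r - 3`, and for all `n ≥ r` the upper bound holds and the lower bound holds
with the constant `2 ^ (2 ^ 15 + r)`.

The starting result `HypercubeTheta` (order of magnitude `2 ^ n / n` for every fixed `r`) is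
contained in this one, which is uniform in `r` and in which the constants are explicit. The
construction for the lower bound is the one of `HypercubeTheta`. The upper bound of that file,
`(r + 2) 2 ^ n / (n - r + 1)`, is improved: one counts, for the vertices `v_i` of a path which are
infected exactly at the times `i`, the neighbours not infected at the time `i - 2`; a vertex is not
adjacent to two consecutive vertices of the path, since the cube is bipartite.
-/

set_option autoImplicit false

namespace Pool.Agent.Results.MP_df66b4_co.UniformBounds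

open Pool.Agent.TH479.BP

/-- Bounds for the maximum percolation time `M = maxTime (cube n 2) r` of the `n`-dimensional
hypercube, for all `n ≥ r ≥ 3`: it is attained, `M (n - r + 1) ≤ (r + 1) 2 ^ n`,
`2 ^ n ≤ 2 ^ (2 ^ 15 + r) n M`, and `2 ^ n ≤ 2 ^ (r + 9) n M` if `n ≥ 2 ^ 15 + r - 3`. -/
theorem result (r n : ℕ) (hr : 3 ≤ r) (hn : r ≤ n) :
    IsGreatest {t : ℕ | ∃ A : Set (Fin n → Fin 2), closure (cube n 2) r A = Set.univ ∧
      t = time (cube n 2) r A} (maxTime (cube n 2) r) ∧
    maxTime (cube n 2) r * (n - r + 1) ≤ (r + 1) * 2 ^ n ∧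
    2 ^ n ≤ 2 ^ (2 ^ 15 + r) * n * maxTime (cube n 2) r ∧
    (2 ^ 15 + r ≤ n + 3 → 2 ^ n ≤ 2 ^ (r + 9) * n * maxTime (cube n 2) r) := by
  refine ⟨⟨maxTime_mem _ _, fun t ht => le_csSup (bdd_times _ _) ht⟩, ?_,
    Pool.Agent.Y442.BP.cube_lower n r hr hn, fun h => lower_large r n hr (by omega)⟩
  have h := Pool.Agent.Y442.BP.cube_upper n r (by omega)
  rwa [show n - (r - 1) = n - r + 1 by omega] at h

end Pool.Agent.Results.MP_df66b4_co.UniformBounds
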